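import Pool.Agent.W177.PQ.H4
import Pool.Agent.Y346.SG.Stm

/-!
# Project SG, task LOW: powers congruent to `-1` modulo primes `q = 1 (mod L)`
-/

set_option autoImplicit false

namespace Pool.Agent.Y79.SG2

open NumberField Filter Topology Finset
open Pool.Agent.W401.Cheb (HasFrob xp pr TorAt M mem_pr M_congr M_mono M_smul)
open Pool.Agent.H951R4.OD (ch PI)
open Pool.Agent.W177.PQ

/-- the order of a fixed root of unity divides `p - 1` -/
lemma cong_cond {F : Type} [Field F] [NumberField F] [IsGalois ℚ F] {n : ℕ} (hn : 0 < n) {ζ : F}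
    (hζ : IsPrimitiveRoot ζ n) (σ : Gal(F/ℚ)) (h1 : σ ζ = ζ) (p : ℕ) [hp : Fact p.Prime]
    (hpn : ¬ p ∣ n) (hx : xp F σ p ≠ 0) : n ∣ p - 1 := by
  set k := AlgebraicClosure (ZMod p) with hk
  have hcp : CharP k p := charP_of_injective_algebraMap (algebraMap (ZMod p) k).injective p
  have hnk : (n : k) ≠ 0 := fun h => hpn ((CharP.cast_eq_zero_iff k p n).mp h)
  have hnz : NeZero (n : k) := ⟨hnk⟩
  obtain ⟨φ, hφ⟩ : ∃ φ : 𝓞 F →+* k, HasFrob p φ σ := by
    unfold xp at hx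
    rw [dif_pos hp.out] at hx
    by_contra hcon
    push Not at hcon
    apply hx
    have : IsEmpty {φ : 𝓞 F →+* k // HasFrob p φ σ} := ⟨fun φ => hcon φ.1 φ.2⟩
    exact Nat.card_of_isEmpty
  have hζi : IsIntegral ℤ ζ := hζ.isIntegral hn
  set z : 𝓞 F := ⟨ζ, hζi⟩ with hz
  have hz' : σ • z = z := by
    apply RingOfIntegers.coe_injective
    exact h1
  have hzp : IsPrimitiveRoot z n :=
    IsPrimitiveRoot.of_map_of_injective (f := algebraMap (𝓞 F) F) hζ
      RingOfIntegers.coe_injective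
  have hroot : Polynomial.IsRoot (Polynomial.cyclotomic n k) (φ z) := by
    have h2 := hzp.isRoot_cyclotomic hn
    have h3 := h2.map (f := φ)
    rwa [Polynomial.map_cyclotomic] at h3
  have hφz : IsPrimitiveRoot (φ z) n := Polynomial.isRoot_cyclotomic_iff.1 hroot
  have hφz0 : φ z ≠ 0 := by
    intro h
    have h2 := hφz.pow_eq_one
    rw [h, zero_pow hn.ne'] at h2
    exact zero_ne_one h2
  have h4 : φ z ^ p = φ z := by
    have := hφ z
    rw [hz'] at this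
    exact this.symm
  have h5 : φ z ^ (p - 1) = 1 := by
    have h6 : φ z * φ z ^ (p - 1) = φ z * 1 := by
      rw [← pow_succ', Nat.sub_add_cancel hp.out.one_le, h4, mul_one]
    exact mul_left_cancel₀ hφz0 h6
  exact hφz.dvd_of_pow_eq_one _ h5

theorem low : Pool.Agent.Y346.SG.S_LOW := by
  classical
  intro N₀ _ hN3 g hg
  obtain ⟨c, i, hc2, hcs, rfl⟩ := exists_root g hg
  have hNpos : 0 < N₀ * 2 ^ (i + 2) := by positivity
  obtain ⟨L, iF, iN, iG, ζ, d, α, hζ, hd, hα⟩ := exists_field (N₀ * 2 ^ (i + 2)) hNpos (-1) c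
  obtain ⟨σ, hσ1, hσ2, hσ3⟩ := exists_sigma hNpos (by omega) hcs hζ hd hα
  have hζ1 : IsPrimitiveRoot (ζ ^ N₀) (2 ^ (i + 2)) := hζ.pow hNpos rfl
  have hζ2 : IsPrimitiveRoot (ζ ^ 2 ^ (i + 2)) N₀ := hζ.pow hNpos (mul_comm _ _)
  have hσ4 : σ (ζ ^ N₀) = ζ ^ N₀ := by rw [map_pow, hσ1]
  have hσ5 : σ (ζ ^ 2 ^ (i + 2)) = ζ ^ 2 ^ (i + 2) := by rw [map_pow, hσ1]
  obtain ⟨D, hD, hT⟩ := Pool.Agent.W401.Cheb.torsor L
  set D' : ℕ := D * (2 * (-1 : ℤ).natAbs * c) * (6 * N₀) with hD'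
  have hΔ0 : 0 < (-1 : ℤ).natAbs := by decide
  have hD'0 : 0 < D' := by positivity
  set B : ℝ := (Nat.card Gal(L/ℚ) : ℝ) with hB
  have hB1 : 0 < B := by
    have : 0 < Nat.card Gal(L/ℚ) := Nat.card_pos
    rw [hB]
    exact_mod_cast this
  have hbd : ∀ p : ℕ, p.Prime → ¬ p ∣ D' → (xp L σ p : ℝ) ≤ B := by
    intro p hp hpD
    have : Fact p.Prime := ⟨hp⟩
    have h1 := (hT p (fun h => hpD ((h.mul_right _).mul_right _))).1
    rw [hB, ← h1]
    unfold xp
    rw [dif_pos hp]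
    have hfin : Finite (𝓞 L →+* AlgebraicClosure (ZMod p)) := by
      apply Nat.finite_of_card_ne_zero
      rw [h1]
      exact Nat.card_pos.ne'
    exact_mod_cast Nat.card_le_card_of_injective (Subtype.val) Subtype.val_injective
  -- the good primes
  let b : ℕ → ℝ := fun p => if p ∣ D' ∨ xp L σ p = 0 then 0 else 1
  have hb0 : ∀ p, 0 ≤ b p := fun p => by
    change 0 ≤ (if p ∣ D' ∨ xp L σ p = 0 then (0:ℝ) else 1)
    split_ifs <;> norm_num
  have hMb : ∀ᶠ N : ℕ in atTop, 1 / (2 * B) ≤ M b N := by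
    let a' : ℕ → ℝ := fun p => if p ∣ D' then 0 else 1 / B * (xp L σ p : ℝ)
    have h1 : Tendsto (M fun p => (1 / B) * (xp L σ p : ℝ)) atTop (𝓝 (1 / B)) := by
      have := (Pool.Agent.W401.Cheb.chebotarev L σ).const_mul (1 / B)
      rw [mul_one] at this
      refine this.congr fun N => ?_
      rw [M_smul]
      rfl
    have h2 : Tendsto (M a') atTop (𝓝 (1 / B)) := by
      refine M_congr hD'0 ?_ h1
      intro p _ hpD
      change (if p ∣ D' then 0 else 1 / B * (xp L σ p : ℝ)) = _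
      rw [if_neg hpD]
    have h3 : 1 / (2 * B) < 1 / B := by
      apply one_div_lt_one_div_of_lt hB1
      linarith
    filter_upwards [h2.eventually (lt_mem_nhds h3)] with N hN
    refine hN.le.trans (M_mono ?_ N)
    intro p hp
    change (if p ∣ D' then 0 else 1 / B * (xp L σ p : ℝ)) ≤
      (if p ∣ D' ∨ xp L σ p = 0 then (0:ℝ) else 1)
    by_cases hpD : p ∣ D'
    · rw [if_pos hpD, if_pos (Or.inl hpD)]
    · rw [if_neg hpD]
      by_cases hx : xp L σ p = 0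
      · rw [if_pos (Or.inr hx), hx]
        simp
      · rw [if_neg (by tauto)]
        have := hbd p hp hpD
        rw [one_div, inv_mul_le_iff₀ hB1, mul_one]
        exact this
  obtain ⟨δ, C, hδ, hsum⟩ := log_dens b (fun p _ => hb0 p) _ (by positivity) hMb
  refine ⟨δ, C, hδ, fun z hz => (hsum z hz).trans ?_⟩
  -- comparison
  have h5 : ∑ p ∈ pr z, b p / p ≤ ∑ p ∈ (pr z).filter (fun p => ¬ (p ∣ D' ∨ xp L σ p = 0)),
      (1 : ℝ) / p := by
    rw [Finset.sum_filter]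
    refine Finset.sum_le_sum fun p _ => ?_
    change (if p ∣ D' ∨ xp L σ p = 0 then (0:ℝ) else 1) / p ≤ _
    split_ifs with h1 <;> simp
  refine h5.trans ?_
  refine Finset.sum_le_sum_of_subset_of_nonneg ?_ fun q _ _ => by positivity
  intro p hp
  rw [Finset.mem_filter] at hp
  obtain ⟨hp1, hp2⟩ := hp
  rw [mem_pr] at hp1
  push Not at hp2
  have : Fact p.Prime := ⟨hp1.2⟩
  have hpD : ¬ p ∣ 2 * (-1 : ℤ).natAbs * c := fun h => hp2.1 ((h.mul_left _).mul_right _)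
  obtain ⟨-, h7⟩ := prime_cond (by norm_num) (by omega) hζ1 hd hα σ hσ4 hσ2 hσ3 p hpD hp2.2
  have hp6 : ¬ p ∣ 6 * N₀ := fun h => hp2.1 (h.mul_left _)
  have hpN : ¬ p ∣ N₀ := fun h => hp6 (h.mul_left _)
  have h8 := cong_cond (by omega) hζ2 σ hσ5 p hpN hp2.2
  have hpne : p ≠ 2 := by
    rintro rfl
    exact hp6 ((by norm_num : (2 : ℕ) ∣ 6).mul_right _)
  have hp3 := hp1.2.two_le
  have h9 : p % N₀ = 1 := by
    obtain ⟨t, ht⟩ := h8
    have h10 : p = 1 + N₀ * t := by omega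
    rw [h10, Nat.add_mul_mod_self_left]
    exact Nat.mod_eq_of_lt (by omega)
  rw [Finset.mem_filter]
  refine ⟨?_, h9, hp6, h7⟩
  unfold PI
  rw [Finset.mem_filter, Finset.mem_Ioc]
  exact ⟨⟨by omega, hp1.1⟩, hp1.2⟩

end Pool.Agent.Y79.SG2
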